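import Pool.Agent.Helper26.AL.GoalsA
import Pool.Agent.Helper26.AF.Base
import Pool.Agent.Helper95.AF.CMP

/-!
# Packet AL-FU (project AL, MP_af6c86_pr): two closed sets with prescribed induced graphs
-/

set_option autoImplicit false

namespace Pool.Agent.Helper24.AL

open Finset Pool.Agent.Helper26.AF Pool.Agent.Helper26.AL Pool.Agent.Helper95.AF

/-- the family of the two sets. -/
def QQ {n : ℕ} (U₁ U₂ : Finset (Fin n)) : Fin 2 → Finset (Fin n)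
  | 0 => U₁
  | 1 => U₂

/-- the family of the two graphs. -/
def fam {n : ℕ} (U₁ U₂ : Finset (Fin n)) (H₁ : SimpleGraph (Fin #U₁))
    (H₂ : SimpleGraph (Fin #U₂)) : Fam (QQ U₁ U₂)
  | 0 => H₁
  | 1 => H₂

theorem disj {n : ℕ} {U₁ U₂ : Finset (Fin n)} (h : Disjoint U₁ U₂) :
    ∀ i j, i ≠ j → Disjoint (QQ U₁ U₂ i) (QQ U₁ U₂ j) := by
  intro i j hij
  fin_cases i <;> fin_cases j
  · exact absurd rfl hij
  · exact h
  · exact h.symm
  · exact absurd rfl hij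

theorem clo_iff {n : ℕ} (G : SimpleGraph (Fin n)) (U : Finset (Fin n)) :
    (∀ x ∈ U, ∀ y ∉ U, ¬ G.Adj x y) ↔ Clo G U := by
  constructor
  · intro h x y hxy hx
    by_contra hy
    exact h x hx y hy hxy
  · intro h x hx y hy hxy
    exact hy (h x y hxy hx)

theorem cyl_two {n : ℕ} {U₁ U₂ : Finset (Fin n)} (h : Disjoint U₁ U₂)
    (H₁ : SimpleGraph (Fin #U₁)) (H₂ : SimpleGraph (Fin #U₂)) (G : SimpleGraph (Fin n)) :
    Cyl (QQ U₁ U₂) (fam U₁ U₂ H₁ H₂) G ↔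
      (gi G U₁ = H₁ ∧ Clo G U₁) ∧ (gi G U₂ = H₂ ∧ Clo G U₂) := by
  rw [cyl_iff _ (disj h), Fin.forall_fin_two, ← clo_iff G U₁, ← clo_iff G U₂]
  exact Iff.rfl

theorem pr_cyl (hCYL : StmtCYL) {n : ℕ} {U₁ U₂ : Finset (Fin n)} (hd : Disjoint U₁ U₂)
    (H₁ : SimpleGraph (Fin #U₁)) (H₂ : SimpleGraph (Fin #U₂)) (p : ℝ) (p0 : 0 < p) (p1 : p < 1) :
    Pr p (fun G => Cyl (QQ U₁ U₂) (fam U₁ U₂ H₁ H₂) G) =
      (1 - p) ^ MM n (#U₁ + #U₂) * (p / (1 - p)) ^ (ne H₁ + ne H₂) := by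
  classical
  set Q := QQ U₁ U₂ with hQ
  set h := fam U₁ U₂ H₁ H₂ with hh
  have hTT : #(TT Q) = MM n (#U₁ + #U₂) := by
    rw [card_TT Q (disj hd), Fin.sum_univ_two]
    rfl
  have hAA : #(AA Q h) = ne H₁ + ne H₂ := by
    rw [card_AA Q (disj hd), Fin.sum_univ_two]
    rfl
  have h1 : Pr p (fun G => Cyl Q h G) = p ^ #(AA Q h) * (1 - p) ^ #(TT Q \ AA Q h) := by
    refine hCYL (Fin n) p (AA Q h) (TT Q \ AA Q h) disjoint_sdiff ?_
    intro e he
    rw [mem_union, mem_sdiff] at he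
    have h2 : e ∈ TT Q := by
      rcases he with he | he
      · exact AA_sub Q h he
      · exact he.1
    unfold Pool.Agent.Helper95.AF.TT at h2
    rw [mem_filter, mem_EV] at h2
    exact h2.1
  have h3 : #(TT Q \ AA Q h) = MM n (#U₁ + #U₂) - #(AA Q h) := by
    rw [card_sdiff_of_subset (AA_sub Q h), hTT]
  have h4 : #(AA Q h) ≤ MM n (#U₁ + #U₂) := by
    rw [← hTT]
    exact card_le_card (AA_sub Q h)
  have h5 : (1 - p) ≠ 0 := by linarith
  rw [h1, h3, ← hAA, div_pow]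
  have h6 : (1 - p) ^ MM n (#U₁ + #U₂) =
      (1 - p) ^ #(AA Q h) * (1 - p) ^ (MM n (#U₁ + #U₂) - #(AA Q h)) := by
    rw [← pow_add, Nat.add_sub_cancel' h4]
  rw [h6]
  field_simp

theorem goalFU (hCYL : Pool.Agent.Helper26.AF.StmtCYL) : Pool.Agent.Helper26.AL.StmtFU := by
  classical
  intro n U₁ U₂ hd w p p0 p1
  have hpt : (fun G : SimpleGraph (Fin n) => open Classical in
      if Clo G U₁ ∧ Clo G U₂ then w (gi G U₁) (gi G U₂) else 0) =
      fun G => ∑ H₁ : SimpleGraph (Fin #U₁), ∑ H₂ : SimpleGraph (Fin #U₂),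
        w H₁ H₂ * (open Classical in
          if Cyl (QQ U₁ U₂) (fam U₁ U₂ H₁ H₂) G then (1 : ℝ) else 0) := by
    funext G
    rw [Finset.sum_eq_single (gi G U₁)]
    · rw [Finset.sum_eq_single (gi G U₂)]
      · by_cases hc : Clo G U₁ ∧ Clo G U₂
        · rw [if_pos hc, if_pos ((cyl_two hd _ _ G).2 ⟨⟨rfl, hc.1⟩, ⟨rfl, hc.2⟩⟩), mul_one]
        · rw [if_neg hc, if_neg (fun h' => hc
            ⟨((cyl_two hd _ _ G).1 h').1.2, ((cyl_two hd _ _ G).1 h').2.2⟩), mul_zero]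
      · intro H₂ _ hne
        rw [if_neg (fun h' => hne ((cyl_two hd _ _ G).1 h').2.1.symm), mul_zero]
      · intro h'
        exact absurd (mem_univ _) h'
    · intro H₁ _ hne
      refine Finset.sum_eq_zero fun H₂ _ => ?_
      rw [if_neg (fun h' => hne ((cyl_two hd _ _ G).1 h').1.1.symm), mul_zero]
    · intro h'
      exact absurd (mem_univ _) h'
  have hPr : ∀ (H₁ : SimpleGraph (Fin #U₁)) (H₂ : SimpleGraph (Fin #U₂)),
      EE p (fun G : SimpleGraph (Fin n) => w H₁ H₂ * (open Classical in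
        if Cyl (QQ U₁ U₂) (fam U₁ U₂ H₁ H₂) G then (1 : ℝ) else 0)) =
      (1 - p) ^ MM n (#U₁ + #U₂) * (w H₁ H₂ * (p / (1 - p)) ^ (ne H₁ + ne H₂)) := by
    intro H₁ H₂
    rw [EE_smul]
    have h1 := pr_cyl hCYL hd H₁ H₂ p p0 p1
    unfold Pr at h1
    rw [h1]
    ring
  rw [hpt, EE_sum]
  rw [Finset.mul_sum]
  refine Finset.sum_congr rfl fun H₁ _ => ?_
  rw [EE_sum, Finset.mul_sum]
  exact Finset.sum_congr rfl fun H₂ _ => hPr H₁ H₂

end Pool.Agent.Helper24.AL
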